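import Pool.Agent.Helper30.AC.Stmts

/-!
# Row NOT: a pointwise limit of continuous affine maps gives finite rank operators
-/

set_option autoImplicit false

namespace Pool.Agent.Helper49.AC

open Filter Topology
open Pool.Agent.Helper30.AC

universe u

section

variable {E : Type u} [NormedAddCommGroup E] [NormedSpace ℝ E] {K : Set E}
  (y : ℕ → E →L[ℝ] ℝ)

theorem ext_sum {N N' : ℕ} (h : N ≤ N') (v : E) (L : ℕ → E) :
    ∑ i ∈ Finset.range N, y i v • L i =
      ∑ i ∈ Finset.range N', y i v • (if i < N then L i else 0) := by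
  rw [← Finset.sum_subset (Finset.range_subset_range.2 h)]
  · refine Finset.sum_congr rfl fun i hi => ?_
    rw [if_pos (Finset.mem_range.1 hi)]
  · intro i _ hi
    rw [if_neg (fun h => hi (Finset.mem_range.2 h)), smul_zero]

/-- the maps `v ↦ c + ∑ y i v • L i` -/
def SS (K : Set E) : Submodule ℝ C(K, E) where
  carrier := {s | ∃ (N : ℕ) (c : E) (L : ℕ → E), ∀ v : K,
    s v = c + ∑ i ∈ Finset.range N, y i v • L i}
  zero_mem' := ⟨0, 0, 0, fun v => by simp⟩
  add_mem' := by
    rintro a b ⟨N, c, L, ha⟩ ⟨N', c', L', hb⟩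
    refine ⟨max N N', c + c', fun i => (if i < N then L i else 0) + (if i < N' then L' i else 0),
      fun v => ?_⟩
    rw [ContinuousMap.add_apply, ha, hb, ext_sum y (le_max_left N N'),
      ext_sum y (le_max_right N N') v L']
    simp only [smul_add, Finset.sum_add_distrib]
    abel
  smul_mem' := by
    rintro r a ⟨N, c, L, ha⟩
    refine ⟨N, r • c, fun i => r • L i, fun v => ?_⟩
    rw [ContinuousMap.smul_apply, ha, smul_add, Finset.smul_sum]
    congr 1
    refine Finset.sum_congr rfl fun i _ => ?_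
    rw [smul_comm]

theorem mem_SS {s : C(K, E)} : s ∈ SS y K ↔ ∃ (N : ℕ) (c : E) (L : ℕ → E), ∀ v : K,
    s v = c + ∑ i ∈ Finset.range N, y i v • L i := Iff.rfl

/-- the finite rank operator -/
noncomputable def TT (N : ℕ) (L : ℕ → E) : E →L[ℝ] E :=
  ∑ i ∈ Finset.range N, (y i).smulRight (L i)

theorem TT_apply (N : ℕ) (L : ℕ → E) (v : E) :
    TT y N L v = ∑ i ∈ Finset.range N, y i v • L i := by
  unfold TT
  simp [ContinuousLinearMap.sum_apply]

theorem TT_fin (N : ℕ) (L : ℕ → E) :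
    FiniteDimensional ℝ (LinearMap.range (TT y N L : E →ₗ[ℝ] E)) := by
  have hfd : FiniteDimensional ℝ (Submodule.span ℝ (L '' (Finset.range N : Set ℕ))) :=
    FiniteDimensional.span_of_finite ℝ ((Finset.finite_toSet _).image L)
  refine Submodule.finiteDimensional_of_le (S₂ := Submodule.span ℝ
    (L '' (Finset.range N : Set ℕ))) ?_
  rintro _ ⟨v, rfl⟩
  change TT y N L v ∈ _
  rw [TT_apply]
  refine Submodule.sum_mem _ fun i hi => Submodule.smul_mem _ _ (Submodule.subset_span ?_)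
  exact ⟨i, hi, rfl⟩

theorem cont_LL : Continuous (fun v : K => LL y (fun _ => (v : E))) := by
  refine continuous_pi fun n => continuous_pi fun i => ?_
  unfold LL rho
  by_cases h : i ≤ n
  · simp only [if_pos h]
    exact (y i).continuous.comp continuous_subtype_val
  · simp only [if_neg h]
    exact continuous_const

theorem aff_LL (u v w : E) (t : ℝ) (h : w = t • u + (1 - t) • v) :
    LL y (fun _ => w) = t • LL y (fun _ => u) + (1 - t) • LL y (fun _ => v) := by
  funext n i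
  simp only [LL, rho, Pi.add_apply, Pi.smul_apply, smul_eq_mul]
  by_cases hi : i ≤ n
  · simp only [if_pos hi]
    rw [h, map_add, map_smul, map_smul, smul_eq_mul, smul_eq_mul]
  · simp only [if_neg hi]
    ring

end

theorem st_NOT (hCOM : ST_COM.{u}) (hCL : ST_CL.{u}) (hUB : ST_UB.{u}) (hDOM : ST_DOM.{u}) :
    ST_NOT.{u} := by
  intro E _ _ _ K y f hG hf hAB ε hε
  obtain ⟨F, hF, hlim⟩ := hAB
  obtain ⟨hc, -⟩ := hCL E K y (F 0) hG (hF 0).1 (hF 0).2
  obtain ⟨ι, hι⟩ : ∃ ι : K → XX K y, ∀ v : K, ι v = ⟨LL y (fun _ => (v : E)), hc v v.2⟩ :=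
    ⟨fun v => ⟨LL y (fun _ => (v : E)), hc v v.2⟩, fun v => rfl⟩
  have hιv : ∀ v : K, (ι v).1 = LL y (fun _ => (v : E)) := fun v => by rw [hι]
  have hιc : Continuous ι := by
    rw [continuous_induced_rng]
    have : (Subtype.val ∘ ι) = fun v : K => LL y (fun _ => (v : E)) := by
      funext v
      exact hιv v
    rw [this]
    exact cont_LL y
  have hfι : ∀ v : K, f (ι v) = v := fun v => hf v v.2 (ι v) (hιv v)
  have hbc : ∀ m, Continuous (fun v => F m (ι v)) := fun m => (hF m).1.comp hιc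
  have hba : ∀ m, IsAffineOn K (fun v => F m (ι v)) := by
    intro m a b z t ht0 ht1 hz
    refine (hF m).2 (ι a) (ι b) (ι z) t ht0 ht1 ?_
    rw [hιv, hιv, hιv]
    exact aff_LL y a b z t hz
  have hbl : ∀ v : K, Tendsto (fun m => F m (ι v)) atTop (𝓝 (v : E)) := by
    intro v
    have := hlim (ι v)
    rwa [hfι] at this
  obtain ⟨B, hB⟩ := hUB E K (fun m v => F m (ι v)) hG (fun m => ⟨hbc m, hba m⟩)
    (fun v => ⟨_, hbl v⟩)
  haveI : CompactSpace K := isCompact_iff_compactSpace.1 hG.1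
  obtain ⟨g, hg⟩ : ∃ g : ℕ → C(K, E), ∀ m v, g m v = F m (ι v) :=
    ⟨fun m => ⟨fun v => F m (ι v), hbc m⟩, fun m v => rfl⟩
  obtain ⟨id', hid⟩ : ∃ id' : C(K, E), ∀ v : K, id' v = v :=
    ⟨⟨fun v => (v : E), continuous_subtype_val⟩, fun v => rfl⟩
  have hgS : ∀ m, g m ∈ (SS y K).topologicalClosure := by
    intro m
    change g m ∈ closure ((SS y K : Submodule ℝ C(K, E)) : Set C(K, E))
    rw [Metric.mem_closure_iff]
    intro δ hδ
    obtain ⟨hc', hcl⟩ := hCL E K y (F m) hG (hF m).1 (hF m).2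
    obtain ⟨N, c, L, hNL⟩ := hcl (δ / 2) (by positivity)
    obtain ⟨s, hs⟩ : ∃ s : C(K, E), ∀ v : K, s v = c + ∑ i ∈ Finset.range N, y i v • L i := by
      refine ⟨⟨fun v : K => c + ∑ i ∈ Finset.range N, y i v • L i, ?_⟩, fun v => rfl⟩
      refine continuous_const.add (continuous_finsetSum _ fun i _ => ?_)
      exact ((y i).continuous.comp continuous_subtype_val).smul continuous_const
    refine ⟨s, (mem_SS y).2 ⟨N, c, L, hs⟩, ?_⟩
    rw [ContinuousMap.dist_lt_iff hδ]
    intro v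
    rw [dist_eq_norm, hg, hs, hι]
    exact lt_of_le_of_lt (hNL v v.2) (by linarith)
  have hid' := hDOM K E (SS y K) g id' B hgS (fun m v => by rw [hg]; exact hB m v)
    (fun v => by
      simp only [hg]
      rw [hid]
      exact hbl v)
  change id' ∈ closure ((SS y K : Submodule ℝ C(K, E)) : Set C(K, E)) at hid'
  rw [Metric.mem_closure_iff] at hid'
  obtain ⟨s, hsS, hds⟩ := hid' ε hε
  obtain ⟨N, c, L, hs⟩ := (mem_SS y).1 hsS
  rw [ContinuousMap.dist_lt_iff hε] at hds
  refine ⟨TT y N L, TT_fin y N L, fun v hv => ?_⟩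
  have hnv := hG.2.2.2 v hv
  have a1 := hds ⟨v, hv⟩
  have a2 := hds ⟨-v, hnv⟩
  rw [dist_eq_norm, hid, hs] at a1 a2
  simp only at a1 a2
  have e : TT y N L v - v = (1 / 2 : ℝ) •
      ((-v - (c + ∑ i ∈ Finset.range N, y i (-v) • L i)) -
        (v - (c + ∑ i ∈ Finset.range N, y i v • L i))) := by
    have e1 : ∑ i ∈ Finset.range N, y i (-v) • L i = -TT y N L v := by
      rw [← TT_apply, map_neg]
    rw [e1, ← TT_apply]
    module
  rw [e, norm_smul]
  have h12 : ‖(1 / 2 : ℝ)‖ = 1 / 2 := by norm_num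
  rw [h12]
  have := norm_sub_le (-v - (c + ∑ i ∈ Finset.range N, y i (-v) • L i))
    (v - (c + ∑ i ∈ Finset.range N, y i v • L i))
  linarith

end Pool.Agent.Helper49.AC
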